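import Pool.Agent.DS55.Omega

open Set

namespace Pool.Agent.Results.MP_f00d09_gt.DiamondNotD

/-- `C` is a closed unbounded subset of the first uncountable ordinal. -/
def IsClub (C : Set Ordinal.{0}) : Prop :=
  (∀ α ∈ C, α < Ordinal.omega 1) ∧
  (∀ β < Ordinal.omega 1, ∃ α ∈ C, β < α) ∧
  (∀ α < Ordinal.omega 1, α ≠ 0 → (∀ β < α, ∃ γ ∈ C, β < γ ∧ γ < α) → α ∈ C)

/-- Jensen's diamond principle for the first uncountable ordinal: there are sets `A α ⊆ α` such that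
for every set `S` of countable ordinals and every closed unbounded `C` some `α ∈ C` has
`S ∩ α = A α`. -/
def Diamond : Prop :=
  ∃ A : Ordinal.{0} → Set Ordinal.{0}, (∀ α, A α ⊆ Set.Iio α) ∧
    ∀ S : Set Ordinal.{0}, ∀ C : Set Ordinal.{0}, IsClub C → ∃ α ∈ C, S ∩ Set.Iio α = A α

/-- `X` is a D-space. -/
def IsDSpace (X : Type) [TopologicalSpace X] : Prop :=
  ∀ N : X → Set X, (∀ x, IsOpen (N x) ∧ x ∈ N x) →
    ∃ D : Set X, IsClosed D ∧ DiscreteTopology D ∧ (⋃ d ∈ D, N d) = Set.univ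

/-- `Y` is a Menger space. -/
def IsMenger (Y : Type) [TopologicalSpace Y] : Prop :=
  ∀ 𝒰 : ℕ → Set (Set Y), (∀ n, (∀ U ∈ 𝒰 n, IsOpen U) ∧ ⋃₀ 𝒰 n = Set.univ) →
    ∃ 𝒱 : ℕ → Set (Set Y), (∀ n, 𝒱 n ⊆ 𝒰 n ∧ (𝒱 n).Finite) ∧ (⋃ n, ⋃₀ 𝒱 n) = Set.univ

theorem diamondW_of_diamond (h : Diamond) : DS55.DiamondW DS55.OM := by
  obtain ⟨A, hA0, hA⟩ := h
  let e : Set.Iio (Ordinal.omega 1 : Ordinal.{0}) ≃o DS55.OM := Ordinal.ToType.mk
  let v : DS55.OM → Ordinal.{0} := fun w => (e.symm w : Ordinal.{0})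
  have hvlt : ∀ w, v w < Ordinal.omega 1 := fun w => (e.symm w).2
  have hvmono : ∀ a b, v a < v b ↔ a < b := by
    intro a b
    constructor
    · intro h
      have : e.symm a < e.symm b := h
      exact e.symm.lt_iff_lt.1 this
    · intro h
      have : e.symm a < e.symm b := e.symm.lt_iff_lt.2 h
      exact this
  have hvinj : Function.Injective v := by
    intro a b h
    exact e.symm.injective (Subtype.ext h)
  have hvsurj : ∀ o : Ordinal.{0}, o < Ordinal.omega 1 → ∃ w, v w = o := by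
    intro o ho
    refine ⟨e ⟨o, ho⟩, ?_⟩
    change ((e.symm (e ⟨o, ho⟩) : Set.Iio (Ordinal.omega 1 : Ordinal.{0})) : Ordinal.{0}) = o
    rw [e.symm_apply_apply]
  refine ⟨fun w => v ⁻¹' (A (v w)), fun S C hC => ?_⟩
  obtain ⟨α, hα, hα2⟩ := hA (v '' S) (v '' C) (by
    refine ⟨?_, ?_, ?_⟩
    · rintro _ ⟨w, _, rfl⟩
      exact hvlt w
    · intro β hβ
      obtain ⟨w, rfl⟩ := hvsurj β hβ
      obtain ⟨a, ha, hwa⟩ := hC.1 w
      exact ⟨v a, ⟨a, ha, rfl⟩, (hvmono _ _).2 hwa⟩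
    · intro α hα hα0 h
      obtain ⟨w, rfl⟩ := hvsurj α hα
      refine ⟨w, hC.2 w ?_ ?_, rfl⟩
      · obtain ⟨z, hz⟩ := hvsurj 0 (lt_of_le_of_lt zero_le hα)
        refine ⟨z, (hvmono _ _).1 ?_⟩
        rw [hz]
        exact pos_iff_ne_zero.2 hα0
      · intro β hβ
        obtain ⟨_, ⟨γ, hγ, rfl⟩, h1, h2⟩ := h (v β) ((hvmono _ _).2 hβ)
        exact ⟨γ, hγ, (hvmono _ _).1 h1, (hvmono _ _).1 h2⟩)
  obtain ⟨a, ha, rfl⟩ := hα
  refine ⟨a, ha, ?_⟩
  ext w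
  simp only [Set.mem_inter_iff, Set.mem_preimage, Set.mem_Iio]
  constructor
  · rintro ⟨h1, h2⟩
    rw [← hα2] at h1
    obtain ⟨⟨s, hs, hsw⟩, _⟩ := h1
    rw [← hvinj hsw]
    exact ⟨hs, (hvmono _ _).1 (hsw ▸ (hvmono _ _).2 h2)⟩
  · rintro ⟨h1, h2⟩
    refine ⟨?_, h2⟩
    rw [← hα2]
    exact ⟨⟨w, h1, rfl⟩, (hvmono _ _).2 h2⟩

/-- Assuming Jensen's diamond principle there is a regular, hereditarily Lindelöf space in which the
closure of every countable set is countable, hence Menger, and which is not a D-space. -/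
theorem result : Diamond →
    ∃ (X : Type) (_ : TopologicalSpace X), T3Space X ∧ HereditarilyLindelofSpace X ∧
      (∀ A : Set X, A.Countable → (closure A).Countable) ∧
      (∀ A : Set X, A.Countable → IsMenger (closure A)) ∧ ¬ IsDSpace X := by
  intro h
  obtain ⟨X, τ, h1, h2, h3, h4⟩ := DS55.counterexample_of_diamondW (diamondW_of_diamond h)
  refine ⟨X, τ, h1, h2, h3, fun A hA => ?_, h4⟩
  have : Countable (closure A) := (h3 A hA).to_subtype
  exact DS55.isMenger_of_countable (closure A)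

end Pool.Agent.Results.MP_f00d09_gt.DiamondNotD
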